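import Pool.Agent.Helper21.WD.Stmts
import Pool.Agent.Helper3.MT10.DRV
import Mathlib.Algebra.Lie.CartanCriterion
import Mathlib.Algebra.Lie.Engel
import Mathlib.Algebra.Lie.Solvable

/-!
# TRC: the trace form of an irreducible Lie algebra of skew matrices is nondegenerate
-/

set_option autoImplicit false

namespace MT

namespace TRC3

attribute [local instance 100] LieRing.ofAssociativeRing

open LieAlgebra RED9

variable {K : Type} [Field K] {n : ℕ}

/-- the kernel of the trace form -/
def ker (a : Submodule K (Matrix (Fin n) (Fin n) K)) (ha : Brk a) :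
    LieIdeal K (bL a ha) where
  carrier := {x | ∀ y : bL a ha, ((x : Matrix (Fin n) (Fin n) K) *
    (y : Matrix (Fin n) (Fin n) K)).trace = 0}
  add_mem' := by
    intro x x' hx hx' y
    change ((x.1 + x'.1) * y.1).trace = 0
    rw [add_mul, Matrix.trace_add, hx y, hx' y, add_zero]
  zero_mem' := by
    intro y
    change ((0 : Matrix (Fin n) (Fin n) K) * y.1).trace = 0
    rw [zero_mul, Matrix.trace_zero]
  smul_mem' := by
    intro t x hx y
    change ((t • x.1) * y.1).trace = 0
    rw [Matrix.smul_mul, Matrix.trace_smul, hx y, smul_zero]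
  lie_mem := by
    intro z x hx y
    have h1 := hx ⁅y, z⁆
    have h2 : (⁅y, z⁆ : bL a ha).1 = y.1 * z.1 - z.1 * y.1 := by
      rw [LieSubalgebra.coe_bracket, Ring.lie_def]
    have h3 : (⁅z, x⁆ : bL a ha).1 = z.1 * x.1 - x.1 * z.1 := by
      rw [LieSubalgebra.coe_bracket, Ring.lie_def]
    change ((⁅z, x⁆ : bL a ha).1 * y.1).trace = 0
    change (x.1 * (⁅y, z⁆ : bL a ha).1).trace = 0 at h1
    rw [h2, mul_sub, Matrix.trace_sub, ← mul_assoc, ← mul_assoc] at h1
    rw [h3, sub_mul, Matrix.trace_sub, mul_assoc z.1, Matrix.trace_mul_comm z.1]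
    exact h1

end TRC3

open RED9 DRV3 TRC3

attribute [local instance 100] LieRing.ofAssociativeRing

theorem st_TRC : ST_TRC := by
  intro K _ _ _ n ψ a hψ ha hi hs x hx h0
  rcases Nat.eq_zero_or_pos n with rfl | hn
  · exact Subsingleton.elim _ _
  have : Nonempty (Fin n) := ⟨⟨0, hn⟩⟩
  have : LieModule.IsIrreducible K (bL a ha) (Fin n → K) := irr_bL hn ha hi
  have hE : ∀ x : bL a ha, LieModule.toEnd K (bL a ha) (Fin n → K) x =
      Matrix.toLin' (x : Matrix (Fin n) (Fin n) K) := by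
    intro x
    ext v i
    rfl
  have : LieAlgebra.HasTrivialRadical K (bL a ha) := by
    refine LieAlgebra.hasTrivialRadical_of_isIrreducible_of_isFaithful K (bL a ha) (Fin n → K) ?_
    intro x
    rw [hE x, Matrix.trace_toLin'_eq]
    exact x.2.1
  have hb : ∀ A ∈ a, A ∈ bL a ha := fun A hA => ⟨skew_tr hψ (hs A hA), A, hA, 0, by simp⟩
  have hc : ∀ y : bL a ha, (y : Matrix (Fin n) (Fin n) K) ∈ a := by
    rintro ⟨Y, hY, A, hA, c, rfl⟩
    have h1 := skew_tr hψ (hs A hA)
    rw [Matrix.trace_sub, h1, Matrix.trace_smul, Matrix.trace_one, Fintype.card_fin, zero_sub,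
      smul_eq_mul, neg_eq_zero, mul_eq_zero] at hY
    have h2 : c = 0 := hY.resolve_right (Nat.cast_ne_zero.mpr hn.ne')
    change A - c • (1 : Matrix (Fin n) (Fin n) K) ∈ a
    rw [h2, zero_smul, sub_zero]
    exact hA
  have hk : (⟨x, hb x hx⟩ : bL a ha) ∈ ker a ha := fun y => h0 _ (hc y)
  have htf : LieModule.traceForm K (ker a ha) (Fin n → K) = 0 := by
    ext ⟨y, hy⟩ ⟨z, hz⟩
    change LinearMap.trace K (Fin n → K) ((LieModule.toEnd K (bL a ha) (Fin n → K) y) ∘ₗ
      (LieModule.toEnd K (bL a ha) (Fin n → K) z)) = 0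
    rw [hE y, hE z, ← Matrix.toLin'_mul, Matrix.trace_toLin'_eq]
    exact hy z
  have hnil : LieModule.IsNilpotent (LieAlgebra.derivedSeries K (ker a ha) 1) (Fin n → K) :=
    LieModule.isNilpotent_derivedSeries_of_traceForm_eq_zero htf
  have hD : LieRing.IsNilpotent (LieAlgebra.derivedSeries K (ker a ha) 1) := by
    rw [LieAlgebra.isNilpotent_iff_forall (R := K)]
    intro y
    have h1 := (LieModule.isNilpotent_iff_forall' (R := K)).mp hnil y
    have h2 : LieModule.toEnd K (LieAlgebra.derivedSeries K (ker a ha) 1) (Fin n → K) y =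
        Matrix.toLin' (y.1.1.1 : Matrix (Fin n) (Fin n) K) := by
      ext v i
      rfl
    rw [h2] at h1
    have h3 : IsNilpotent (y.1.1.1 : Matrix (Fin n) (Fin n) K) := by
      have h4 : IsNilpotent ((Matrix.toLinAlgEquiv' : Matrix (Fin n) (Fin n) K ≃ₐ[K] _)
        (y.1.1.1 : Matrix (Fin n) (Fin n) K)) := h1
      exact (IsNilpotent.map_iff (Matrix.toLinAlgEquiv' :
        Matrix (Fin n) (Fin n) K ≃ₐ[K] _).injective).mp h4
    have h5 : IsNilpotent (LieAlgebra.ad K (bL a ha) y.1.1) :=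
      LieAlgebra.isNilpotent_ad_of_isNilpotent h3
    have h6 : IsNilpotent (LieAlgebra.ad K (ker a ha) y.1) :=
      LieSubalgebra.isNilpotent_ad_of_isNilpotent_ad (ker a ha : LieSubalgebra K (bL a ha)) h5
    exact LieSubalgebra.isNilpotent_ad_of_isNilpotent_ad
      (LieAlgebra.derivedSeries K (ker a ha) 1 : LieSubalgebra K (ker a ha)) h6
  have hsol : LieAlgebra.IsSolvable (ker a ha) := by
    obtain ⟨k, hk⟩ := LieAlgebra.IsSolvable.solvable K (LieAlgebra.derivedSeries K (ker a ha) 1)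
    rw [LieIdeal.derivedSeries_eq_bot_iff] at hk
    refine LieAlgebra.IsSolvable.mk (k := k + 1) (R := K) ?_
    rw [LieAlgebra.derivedSeries_def, LieAlgebra.derivedSeriesOfIdeal_add]
    exact hk
  have hbot : ker a ha = ⊥ := LieAlgebra.HasTrivialRadical.eq_bot_of_isSolvable (ker a ha)
  rw [hbot, LieSubmodule.mem_bot] at hk
  exact congrArg Subtype.val hk

end MT
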