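import Pool.Agent.Helper84.WD.TORa
import Pool.Agent.Helper21.WD.StmtsQ

/-!
# ENG: ideals of the degree zero part contain elements which are not nilpotent
-/

set_option autoImplicit false

open Matrix

namespace MT

namespace ENG3

attribute [local instance 100] LieRing.ofAssociativeRing

open Tor BND92

variable {K : Type} [Field K] {n : ℕ}

/-- a space of matrices closed under brackets as a Lie algebra -/
def sL (I : Submodule K (Matrix (Fin n) (Fin n) K))
    (hI : ∀ x ∈ I, ∀ y ∈ I, x * y - y * x ∈ I) : LieSubalgebra K (Matrix (Fin n) (Fin n) K) where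
  carrier := {z | z ∈ I}
  add_mem' := fun hx hy => I.add_mem hx hy
  zero_mem' := I.zero_mem
  smul_mem' := fun t _ hx => I.smul_mem t hx
  lie_mem' := by
    intro x y hx hy
    rw [Ring.lie_def]
    exact hI x hx y hy

/-- Engel's theorem -/
theorem engel (I : Submodule K (Matrix (Fin n) (Fin n) K))
    (hI : ∀ x ∈ I, ∀ y ∈ I, x * y - y * x ∈ I) (h : ∀ z ∈ I, IsNilpotent z) :
    ∃ k, pr {z | z ∈ I} k = ⊥ := by
  have hE : ∀ x : sL I hI, LieModule.toEnd K (sL I hI) (Fin n → K) x =
      Matrix.toLin' (x : Matrix (Fin n) (Fin n) K) := by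
    intro x
    ext v i
    rfl
  have h1 : LieModule.IsNilpotent (sL I hI) (Fin n → K) := by
    rw [LieModule.isNilpotent_iff_forall' (R := K)]
    intro x
    rw [hE x]
    have h2 := h x.1 x.2
    exact h2.map (Matrix.toLinAlgEquiv' : Matrix (Fin n) (Fin n) K ≃ₐ[K] _)
  rw [LieModule.isNilpotent_iff K] at h1
  obtain ⟨k, hk⟩ := h1
  refine ⟨k, ?_⟩
  have h3 : ∀ k, pr {z | z ∈ I} k ≤
      (LieModule.lowerCentralSeries K (sL I hI) (Fin n → K) k).toSubmodule := by
    intro k
    induction k with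
    | zero => intro v _; exact LieSubmodule.mem_top v
    | succ k ih =>
      apply Submodule.span_le.2
      rintro _ ⟨z, hz, v, hv, rfl⟩
      rw [LieModule.lowerCentralSeries_succ]
      exact LieSubmodule.lie_mem_lie (I := (⊤ : LieIdeal K (sL I hI)))
        (x := (⟨z, hz⟩ : sL I hI)) (LieSubmodule.mem_top _) (ih hv)
  rw [eq_bot_iff]
  intro v hv
  have h4 := h3 k hv
  rw [hk] at h4
  exact h4

end ENG3

open Tor BND92 ENG3 in
theorem st_ENG : ST_ENG := by
  intro K _ _ _ n ε ψ s a hG I hI hb hid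
  by_contra hcon
  push Not at hcon
  have hst : ∀ x ∈ gr s 0 a, ∀ y ∈ I, x * y - y * x ∈ I := hid
  obtain ⟨k, hk⟩ := engel I (fun x hx y hy => hid x (hI hx) y hy) hcon
  apply hb
  rw [eq_bot_iff]
  intro z hz
  rw [Submodule.mem_bot]
  have hz0 := mem_gr.1 (hI hz)
  apply st_TRC K n ψ a hG.unit hG.brk hG.irr hG.iso z hz0.1
  intro y hy
  have e : (z * y).trace = (z * cmp s 0 y).trace := by
    rw [Matrix.trace, Matrix.trace]
    apply Finset.sum_congr rfl
    intro i _
    rw [Matrix.diag_apply, Matrix.diag_apply, Matrix.mul_apply, Matrix.mul_apply]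
    apply Finset.sum_congr rfl
    intro j _
    by_cases h : z i j = 0
    · rw [h, zero_mul, zero_mul]
    · have h1 := hz0.2 i j h
      congr 1
      rw [cmp, Matrix.of_apply, if_pos (by omega)]
  rw [e]
  have hy' : cmp s 0 y ∈ gr s 0 a := by
    refine mem_gr.2 ⟨hG.comp y hy 0, ?_⟩
    intro i j hij
    rw [cmp, Matrix.of_apply] at hij
    by_contra h4
    exact hij (if_neg h4)
  have hnil : IsNilpotent (z * cmp s 0 y) := by
    refine ⟨k, ?_⟩
    apply Matrix.toLin'.injective
    apply LinearMap.ext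
    intro v
    have h1 := pr_nil {z | z ∈ I} (cmp s 0 y) z (fun w hw => hst _ hy' w hw) hz k v
    rw [hk, Submodule.mem_bot] at h1
    rw [Matrix.toLin'_apply, h1, map_zero, LinearMap.zero_apply]
  exact (Matrix.isNilpotent_trace_of_isNilpotent hnil).eq_zero

end MT
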